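import Mathlib

set_option autoImplicit false

namespace Pool.Agent.MP_246c79_co.H33

open Cardinal

variable {L : Type} [CompleteLattice L]

/-- A rank function: strictly monotone, and going up by one along covers. -/
structure IsRank (ρ : L → ℕ) : Prop where
  lt : ∀ {x y : L}, x < y → ρ x < ρ y
  cov : ∀ {x y : L}, x ⋖ y → ρ y = ρ x + 1

namespace IsRank

variable {ρ : L → ℕ}

theorem le (h : IsRank ρ) {x y : L} (hxy : x ≤ y) : ρ x ≤ ρ y := by
  rcases hxy.eq_or_lt with rfl | hlt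
  · exact le_rfl
  · exact (h.lt hlt).le

theorem eq_of_le (h : IsRank ρ) {x y : L} (hxy : x ≤ y) (hr : ρ y ≤ ρ x) : x = y := by
  rcases hxy.eq_or_lt with rfl | hlt
  · rfl
  · exact absurd (h.lt hlt) (not_lt.mpr hr)

theorem covBy_of (h : IsRank ρ) {x y : L} (hxy : x < y) (hr : ρ y ≤ ρ x + 1) : x ⋖ y := by
  refine ⟨hxy, fun z hxz hzy => ?_⟩
  have h1 := h.lt hxz
  have h2 := h.lt hzy
  omega

end IsRank

/-- existence of a rank function on an upper semimodular lattice of finite height -/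
theorem exists_isRank [IsUpperModularLattice L] (r : ℕ) (hr : Order.height (⊤ : L) = (r : ℕ∞)) :
    ∃ ρ : L → ℕ, IsRank ρ ∧ ∀ x, ρ x ≤ r := by
  have hbot : Order.coheight (⊥ : L) = (r : ℕ∞) := by
    have h1 := Order.height_top_eq_krullDim (α := L)
    have h2 := Order.coheight_bot_eq_krullDim (α := L)
    rw [hr] at h1
    have : ((Order.coheight (⊥ : L) : ℕ∞) : WithBot ℕ∞) = ((r : ℕ∞) : WithBot ℕ∞) := by
      rw [h2, ← h1]
    exact_mod_cast this
  have hle : ∀ x : L, Order.coheight x ≤ (r : ℕ∞) := fun x => by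
    rw [← hbot]; exact Order.coheight_anti bot_le
  have hfin : ∀ x : L, Order.coheight x < ⊤ := fun x =>
    lt_of_le_of_lt (hle x) (ENat.natCast_lt_top r)
  let δ : L → ℕ := fun x => (Order.coheight x).toNat
  have hδ : ∀ x : L, Order.coheight x = (δ x : ℕ∞) := fun x =>
    (ENat.natCast_toNat (hfin x).ne).symm
  have hδle : ∀ x, δ x ≤ r := fun x => by
    have := hle x
    rw [hδ x] at this
    exact_mod_cast this
  have hδlt : ∀ {x y : L}, x < y → δ y < δ x := fun {x y} hxy => by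
    have := Order.coheight_strictAnti hxy (hfin y)
    rw [hδ x, hδ y] at this
    exact_mod_cast this
  have hcov : ∀ n : ℕ, ∀ a : L, δ a = n → ∀ x, a ⋖ x → δ a = δ x + 1 := by
    intro n
    induction n using Nat.strong_induction_on with
    | _ n ih =>
      intro a ha x hax
      have hpos : δ x < δ a := hδlt hax.lt
      obtain ⟨k, hk⟩ : ∃ k, δ a = k + 1 := ⟨δ a - 1, by omega⟩
      have h1 : Order.coheight a = (k : ℕ∞) + 1 := by rw [hδ a, hk]; norm_cast
      obtain ⟨-, ⟨z, hz, hzk⟩, -⟩ := Order.coheight_eq_coe_add_one_iff.mp h1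
      have hzk' : δ z = k := by
        rw [hδ z] at hzk
        exact_mod_cast hzk
      have haz : a ⋖ z := by
        refine ⟨hz, fun w haw hwz => ?_⟩
        have := hδlt haw
        have := hδlt hwz
        omega
      by_cases hxz : x = z
      · subst hxz; omega
      · have hinf : x ⊓ z = a := by
          have h2 : a ≤ x ⊓ z := le_inf hax.le haz.le
          rcases h2.eq_or_lt with h3 | h3
          · exact h3.symm
          · exfalso
            have h4 : x ⊓ z = x := by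
              by_contra h5
              exact hax.2 h3 (lt_of_le_of_ne inf_le_left h5)
            have h5 : x ⊓ z = z := by
              by_contra h5
              exact haz.2 h3 (lt_of_le_of_ne inf_le_right h5)
            exact hxz (h4.symm.trans h5)
        have hx' : x ⋖ x ⊔ z := covBy_sup_of_inf_covBy_right (by rw [hinf]; exact haz)
        have hz' : z ⋖ x ⊔ z := covBy_sup_of_inf_covBy_left (by rw [hinf]; exact hax)
        have e1 := ih (δ x) (by omega) x rfl _ hx'
        have e2 := ih (δ z) (by omega) z rfl _ hz'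
        omega
  refine ⟨fun x => r - δ x, ⟨fun {x y} hxy => ?_, fun {x y} hxy => ?_⟩, fun x => Nat.sub_le _ _⟩
  · have := hδlt hxy
    have := hδle x
    show r - δ x < r - δ y
    omega
  · have := hcov _ x rfl y hxy
    have := hδle x
    show r - δ y = r - δ x + 1
    omega

/-- semimodularity in the form used everywhere -/
theorem covBy_sup [IsUpperModularLattice L] {a x y : L} (hax : a ⋖ x) (hay : a ≤ y)
    (hxy : ¬ x ≤ y) : y ⋖ y ⊔ x := by
  have hinf : y ⊓ x = a := by
    have h2 : a ≤ y ⊓ x := le_inf hay hax.le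
    rcases h2.eq_or_lt with h3 | h3
    · exact h3.symm
    · exfalso
      have h4 : y ⊓ x = x := by
        by_contra h5
        exact hax.2 h3 (lt_of_le_of_ne inf_le_right h5)
      exact hxy (h4 ▸ inf_le_left)
  exact covBy_sup_of_inf_covBy_right (by rw [hinf]; exact hax)

theorem not_le_of_covBy_ne {a x y : L} (hax : a ⋖ x) (hay : a ⋖ y) (hne : x ≠ y) : ¬ x ≤ y :=
  fun h => hay.2 hax.lt (lt_of_le_of_ne h hne)

/-- the flats spanned over `a` by subsets of `A` -/
def Fl (a : L) (A : Set L) : Set L := {F | ∃ S ⊆ A, F = a ⊔ sSup S}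

theorem base_mem_Fl (a : L) (A : Set L) : a ∈ Fl a A :=
  ⟨∅, Set.empty_subset _, by simp⟩

theorem top_mem_Fl (a : L) (A : Set L) : a ⊔ sSup A ∈ Fl a A := ⟨A, le_rfl, rfl⟩

theorem le_of_mem_Fl {a : L} {A : Set L} {F : L} (h : F ∈ Fl a A) : a ≤ F := by
  obtain ⟨S, -, rfl⟩ := h
  exact le_sup_left

theorem le_top_of_mem_Fl {a : L} {A : Set L} {F : L} (h : F ∈ Fl a A) : F ≤ a ⊔ sSup A := by
  obtain ⟨S, hS, rfl⟩ := h
  exact sup_le_sup_left (sSup_le_sSup hS) _

theorem sup_mem_Fl {a : L} {A : Set L} {F x : L} (h : F ∈ Fl a A) (hx : x ∈ A) :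
    F ⊔ x ∈ Fl a A := by
  obtain ⟨S, hS, rfl⟩ := h
  refine ⟨insert x S, Set.insert_subset hx hS, ?_⟩
  rw [sSup_insert]
  ac_rfl

theorem mem_Fl_of_mem {a : L} {A : Set L} {x : L} (hx : x ∈ A) (hax : a ≤ x) : x ∈ Fl a A :=
  ⟨{x}, Set.singleton_subset_iff.mpr hx, by simp [hax]⟩

theorem Fl_mono {a : L} {A B : Set L} (h : A ⊆ B) : Fl a A ⊆ Fl a B := by
  rintro F ⟨S, hS, rfl⟩
  exact ⟨S, hS.trans h, rfl⟩

theorem exists_not_le_of_mem_Fl {a : L} {A : Set L} {F G : L} (hG : G ∈ Fl a A) (haF : a ≤ F)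
    (h : ¬ G ≤ F) : ∃ x ∈ A, x ≤ G ∧ ¬ x ≤ F := by
  obtain ⟨S, hS, rfl⟩ := hG
  by_contra hcon
  push Not at hcon
  apply h
  refine sup_le haF (sSup_le fun x hx => hcon x (hS hx) ?_)
  exact le_sup_of_le_right (le_sSup hx)

/-- the points of the contraction by `p` -/
def Con (A : Set L) (p : L) : Set L := (fun x => p ⊔ x) '' (A \ {p})

theorem Fl_Con {a : L} {A : Set L} {p : L} (hp : p ∈ A) (hap : a ≤ p) :
    Fl p (Con A p) ⊆ Fl a A := by
  rintro F ⟨S, hS, rfl⟩
  refine ⟨insert p {x | x ∈ A ∧ p ⊔ x ∈ S}, ?_, ?_⟩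
  · exact Set.insert_subset hp fun x hx => hx.1
  · rw [sSup_insert, ← sup_assoc, sup_eq_right.mpr hap]
    apply le_antisymm
    · refine sup_le le_sup_left (sSup_le fun s hs => ?_)
      obtain ⟨x, hx, rfl⟩ := hS hs
      exact sup_le_sup_left (le_sSup (show x ∈ {x | x ∈ A ∧ p ⊔ x ∈ S} from ⟨hx.1, hs⟩)) _
    · refine sup_le le_sup_left (sSup_le fun x hx => ?_)
      exact le_sup_of_le_right (le_trans le_sup_right (le_sSup hx.2))

theorem top_Con {a : L} {A : Set L} {p : L} (hp : p ∈ A) (hap : a ≤ p) :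
    p ⊔ sSup (Con A p) = a ⊔ sSup A := by
  apply le_antisymm
  · exact le_top_of_mem_Fl (Fl_Con hp hap (top_mem_Fl _ _))
  · refine sup_le (le_sup_of_le_left hap) (sSup_le fun x hx => ?_)
    by_cases hxp : x = p
    · subst hxp; exact le_sup_left
    · exact le_sup_of_le_right
        (le_trans le_sup_right (le_sSup (show p ⊔ x ∈ Con A p from ⟨x, ⟨hx, hxp⟩, rfl⟩)))

theorem covBy_Con [IsUpperModularLattice L] {a : L} {A : Set L} (hA : ∀ x ∈ A, a ⋖ x) {p : L}
    (hp : p ∈ A) : ∀ z ∈ Con A p, p ⋖ z := by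
  rintro z ⟨x, ⟨hx, hxp⟩, rfl⟩
  exact covBy_sup (hA x hx) (hA p hp).le (not_le_of_covBy_ne (hA x hx) (hA p hp) hxp)

/-- every spanned flat is spanned by a finite subset -/
theorem exists_finset_of_mem_Fl {ρ : L → ℕ} (hρ : IsRank ρ) {r : ℕ} (hr : ∀ x, ρ x ≤ r)
    {a : L} {A : Set L} {F : L} (hF : F ∈ Fl a A) :
    ∃ S : Finset L, (S : Set L) ⊆ A ∧ F = a ⊔ sSup (S : Set L) := by
  classical
  have key : ∀ k : ℕ, ∀ S : Finset L, (S : Set L) ⊆ A → a ⊔ sSup (S : Set L) ≤ F →
      r - ρ (a ⊔ sSup (S : Set L)) ≤ k →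
      ∃ S : Finset L, (S : Set L) ⊆ A ∧ F = a ⊔ sSup (S : Set L) := by
    intro k
    induction k with
    | zero =>
      intro S hS hle hk
      refine ⟨S, hS, (hρ.eq_of_le hle ?_).symm⟩
      have := hr F
      omega
    | succ k ih =>
      intro S hS hle hk
      by_cases h : F ≤ a ⊔ sSup (S : Set L)
      · exact ⟨S, hS, le_antisymm h hle⟩
      · obtain ⟨x, hx, hxF, hxn⟩ := exists_not_le_of_mem_Fl hF le_sup_left h
        have e : a ⊔ sSup ((insert x S : Finset L) : Set L) = (a ⊔ sSup (S : Set L)) ⊔ x := by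
          rw [Finset.coe_insert, sSup_insert]; ac_rfl
        apply ih (insert x S)
        · rw [Finset.coe_insert]; exact Set.insert_subset hx hS
        · rw [e]; exact sup_le hle hxF
        · rw [e]
          have : a ⊔ sSup (S : Set L) < (a ⊔ sSup (S : Set L)) ⊔ x := left_lt_sup.mpr hxn
          have := hρ.lt this
          omega
  exact key r ∅ (by simp) (by simpa using le_of_mem_Fl hF) (Nat.sub_le _ _)

theorem mk_Fl_lt {ρ : L → ℕ} (hρ : IsRank ρ) {r : ℕ} (hr : ∀ x, ρ x ≤ r)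
    {a : L} {A : Set L} {κ : Cardinal} (hκ : ℵ₀ ≤ κ) (hA : #A < κ) : #(Fl a A) < κ := by
  classical
  have h1 : #(Fl a A) ≤ #(Finset A) := by
    let f : Finset A → L := fun S => a ⊔ sSup (Subtype.val '' (S : Set A))
    have : Fl a A ⊆ Set.range f := by
      intro F hF
      obtain ⟨S, hS, rfl⟩ := exists_finset_of_mem_Fl hρ hr hF
      refine ⟨S.subtype (· ∈ A), ?_⟩
      simp only [f]
      congr 2
      ext x
      simp only [Set.mem_image, Finset.mem_coe, Finset.mem_subtype, Subtype.exists,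
        exists_and_right, exists_eq_right]
      exact ⟨fun ⟨_, h⟩ => h, fun h => ⟨hS h, h⟩⟩
    exact (mk_le_mk_of_subset this).trans mk_range_le
  rcases finite_or_infinite A with hfin | hinf
  · exact lt_of_le_of_lt h1 (lt_of_lt_of_le (lt_aleph0_of_finite _) hκ)
  · rw [mk_finset_of_infinite] at h1
    exact lt_of_le_of_lt h1 hA

/-- `c` is a chain with `m` elements starting at `x`, made of covers, inside `Fl a A` -/
structure IsCh (a : L) (A : Set L) (m : ℕ) (x : L) (c : ℕ → L) : Prop where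
  zero : c 0 = x
  cov : ∀ i, i + 1 < m → c i ⋖ c (i + 1)
  mem : ∀ i, i < m → c i ∈ Fl a A

/-- the conclusion: disjoint chains through all points -/
def Good (a : L) (A : Set L) (m : ℕ) : Prop :=
  ∃ c : L → ℕ → L, (∀ x ∈ A, IsCh a A m x (c x)) ∧
    ∀ x ∈ A, ∀ y ∈ A, ∀ i, i < m → c x i = c y i → x = y

end Pool.Agent.MP_246c79_co.H33
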