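import Mathlib

set_option autoImplicit false

namespace Pool.Agent.MP_246c79_co.H33

open Cardinal

/-- transfinite greedy choice of pairwise disjoint small sets -/
theorem greedy {I β : Type} (J : I → Type) (S : ∀ i, J i → Set β) (κ : Cardinal) (hκ : ℵ₀ ≤ κ)
    (hI : #I ≤ κ) (m : ℕ) (U : Set β) (hU : #U ≤ m) (hS : ∀ i j, #(S i j) ≤ m)
    (hdisj : ∀ i j j', ∀ b, b ∈ S i j → b ∈ S i j' → j = j') (hJ : ∀ i, κ ≤ #(J i)) :
    ∃ y : ∀ i, J i, (∀ i, ∀ b ∈ S i (y i), b ∉ U) ∧
      ∀ i i', ∀ b, b ∈ S i (y i) → b ∈ S i' (y i') → i = i' := by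
  classical
  obtain ⟨lo, wf, hord⟩ := Cardinal.exists_ord_eq_type_lt I
  have hm : (m : Cardinal) < κ := lt_of_lt_of_le (natCast_lt_aleph0 (n := m)) hκ
  have step : ∀ (i : I) (V : Set β), #V < κ → ∃ j : J i, ∀ b ∈ S i j, b ∉ V := by
    intro i V hV
    by_contra hcon
    push Not at hcon
    choose f hf1 hf2 using hcon
    have hinj : Function.Injective (fun j : J i => (⟨f j, hf2 j⟩ : V)) := by
      intro j j' h
      have h' : f j = f j' := congrArg Subtype.val h
      exact hdisj i j j' (f j) (hf1 j) (h' ▸ hf1 j')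
    have := mk_le_of_injective hinj
    exact absurd (lt_of_le_of_lt ((hJ i).trans this) hV) (lt_irrefl _)
  have hsmall : ∀ (i : I) (g : ∀ i' : I, i' < i → J i'),
      #((U ∪ ⋃ i' : Set.Iio i, S i'.1 (g i'.1 i'.2) : Set β)) < κ := by
    intro i g
    refine lt_of_le_of_lt (mk_union_le _ _) (add_lt_of_lt hκ (lt_of_le_of_lt hU hm) ?_)
    refine lt_of_le_of_lt (mk_iUnion_le_sum_mk) ?_
    refine lt_of_le_of_lt (sum_le_sum _ (fun _ => (m : Cardinal)) fun i' => hS _ _) ?_
    rw [sum_const']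
    exact mul_lt_of_lt hκ (lt_of_lt_of_le (mk_Iio_lt i hord) hI) hm
  let F : ∀ i : I, (∀ i' : I, i' < i → J i') → J i := fun i g =>
    Classical.choose (step i _ (hsmall i g))
  have hF : ∀ (i : I) (g : ∀ i' : I, i' < i → J i'), ∀ b ∈ S i (F i g),
      b ∉ (U ∪ ⋃ i' : Set.Iio i, S i'.1 (g i'.1 i'.2) : Set β) := fun i g =>
    Classical.choose_spec (step i _ (hsmall i g))
  let y : ∀ i, J i := WellFounded.fix (wellFounded_lt (α := I)) F
  have hy : ∀ i, y i = F i (fun i' _ => y i') := fun i => WellFounded.fix_eq _ _ _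
  have hy' : ∀ i, ∀ b ∈ S i (y i), b ∉ (U ∪ ⋃ i' : Set.Iio i, S i'.1 (y i'.1) : Set β) := by
    intro i b hb
    rw [hy i] at hb
    exact hF i (fun i' _ => y i') b hb
  refine ⟨y, fun i b hb hbU => hy' i b hb (Or.inl hbU), ?_⟩
  intro i i' b hb hb'
  rcases lt_trichotomy i i' with h | h | h
  · exact absurd (Or.inr (Set.mem_iUnion.mpr ⟨⟨i, h⟩, hb⟩)) (hy' i' b hb')
  · exact h
  · exact absurd (Or.inr (Set.mem_iUnion.mpr ⟨⟨i', h⟩, hb'⟩)) (hy' i b hb)

/-- the same with at most one exceptional index having few options -/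
theorem greedy' {I β : Type} (J : I → Type) (S : ∀ i, J i → Set β) (κ : Cardinal) (hκ : ℵ₀ ≤ κ)
    (hI : #I ≤ κ) (m : ℕ) (hS : ∀ i j, #(S i j) ≤ m)
    (hdisj : ∀ i j j', ∀ b, b ∈ S i j → b ∈ S i j' → j = j') (hne : ∀ i, Nonempty (J i))
    (hJ : ∀ i i', #(J i) < κ → #(J i') < κ → i = i') :
    ∃ y : ∀ i, J i, ∀ i i', ∀ b, b ∈ S i (y i) → b ∈ S i' (y i') → i = i' := by
  classical
  by_cases hall : ∀ i, κ ≤ #(J i)
  · obtain ⟨y, -, hy⟩ := greedy J S κ hκ hI m ∅ (by simp) hS hdisj hall
    exact ⟨y, hy⟩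
  · push Not at hall
    obtain ⟨i₀, hi₀⟩ := hall
    obtain ⟨j₀⟩ := hne i₀
    obtain ⟨y, hy1, hy2⟩ := greedy (I := {i // i ≠ i₀}) (fun i => J i.1) (fun i => S i.1) κ hκ
      ((mk_subtype_le _).trans hI) m (S i₀ j₀) (hS _ _) (fun i j => hS _ _)
      (fun i => hdisj i.1) (fun i => by
        by_contra h
        exact i.2 (hJ _ _ (not_le.mp h) hi₀))
    let z : ∀ i, J i := fun i => if h : i = i₀ then h ▸ j₀ else y ⟨i, h⟩
    have hz0 : z i₀ = j₀ := by simp [z]
    have hz1 : ∀ i (h : i ≠ i₀), z i = y ⟨i, h⟩ := fun i h => by simp [z, h]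
    refine ⟨z, fun i i' b hb hb' => ?_⟩
    by_cases h : i = i₀
    · by_cases h' : i' = i₀
      · rw [h, h']
      · subst h
        rw [hz0] at hb
        rw [hz1 i' h'] at hb'
        exact absurd hb (hy1 ⟨i', h'⟩ b hb')
    · by_cases h' : i' = i₀
      · subst h'
        rw [hz0] at hb'
        rw [hz1 i h] at hb
        exact absurd hb' (hy1 ⟨i, h⟩ b hb)
      · rw [hz1 i h] at hb
        rw [hz1 i' h'] at hb'
        exact congrArg Subtype.val (hy2 ⟨i, h⟩ ⟨i', h'⟩ b hb hb')

/-- simultaneous exchange in a finite independent family -/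
theorem exchange {ι V : Type} [Finite ι] [AddCommGroup V] [Module ℚ V] (v : ι → V)
    (hv : LinearIndependent ℚ v) (T : ι → Set V) (hT : ∀ i, v i ∈ Submodule.span ℚ (T i)) :
    ∃ u : ι → V, (∀ i, u i ∈ T i) ∧ LinearIndependent ℚ u := by
  classical
  have key : ∀ s : Finset ι, ∃ u : ι → V, LinearIndependent ℚ u ∧ (∀ i ∈ s, u i ∈ T i) ∧
      ∀ i ∉ s, u i = v i := by
    intro s
    induction s using Finset.induction_on with
    | empty => exact ⟨v, hv, by simp, fun _ _ => rfl⟩
    | insert j s hj ih =>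
      obtain ⟨u, hu, hu1, hu2⟩ := ih
      have h1 : u j ∉ Submodule.span ℚ (u '' (Set.univ \ {j})) :=
        linearIndependent_iff_notMem_span.mp hu j
      have h2 : ∃ w ∈ T j, w ∉ Submodule.span ℚ (u '' (Set.univ \ {j})) := by
        by_contra hcon
        push Not at hcon
        apply h1
        rw [hu2 j hj]
        exact (Submodule.span_le.mpr hcon) (hT j)
      obtain ⟨w, hw, hw'⟩ := h2
      refine ⟨Function.update u j w, ?_, ?_, ?_⟩
      · have e : ∀ x ∈ (Set.univ \ {j} : Set ι), u x = Function.update u j w x := by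
          intro x hx
          rw [Function.update_of_ne hx.2]
        have h3 : LinearIndepOn ℚ (Function.update u j w) (Set.univ \ {j}) :=
          (hu.linearIndepOn _).congr e
        have h4 : LinearIndepOn ℚ (Function.update u j w) (insert j (Set.univ \ {j})) := by
          refine h3.insert ?_
          rw [Function.update_self, ← Set.image_congr e]
          exact hw'
        have h5 : (insert j (Set.univ \ {j}) : Set ι) = Set.univ := by
          simp
        rw [h5] at h4
        exact linearIndepOn_univ_iff.mp h4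
      · intro i hi
        by_cases hij : i = j
        · subst hij; rw [Function.update_self]; exact hw
        · rw [Function.update_of_ne hij]
          exact hu1 i ((Finset.mem_insert.mp hi).resolve_left hij)
      · intro i hi
        have hij : i ≠ j := fun h => hi (h ▸ Finset.mem_insert_self _ _)
        rw [Function.update_of_ne hij]
        exact hu2 i fun h => hi (Finset.mem_insert_of_mem h)
  have := Fintype.ofFinite ι
  obtain ⟨u, hu, hu1, -⟩ := key Finset.univ
  exact ⟨u, fun i => hu1 i (Finset.mem_univ _), hu⟩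

end Pool.Agent.MP_246c79_co.H33
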