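import Pool.Agent.MP_246c79_co.H33.Basic
import Pool.Agent.MP_246c79_co.H33.Greedy

set_option autoImplicit false

namespace Pool.Agent.MP_246c79_co.H33

variable {L : Type} [CompleteLattice L]

open Classical in
/-- indicator vector of the points below `F` -/
noncomputable def chi (A : Set L) (F : L) : A → ℚ := fun x => if (x : L) ≤ F then 1 else 0

/-- the span of the indicator vectors of the spanned flats covered by `G` -/
noncomputable def W (a : L) (A : Set L) (G : L) : Submodule ℚ (A → ℚ) :=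
  Submodule.span ℚ (chi A '' {F | F ∈ Fl a A ∧ F ⋖ G})

theorem chi_aux [IsUpperModularLattice L] {ρ : L → ℕ} (hρ : IsRank ρ) {a : L} {A : Set L}
    (hfin : A.Finite) (hA : ∀ x ∈ A, a ⋖ x) {G : L} (hG : G ∈ Fl a A) :
    ∀ k : ℕ, ∀ F ∈ Fl a A, F < G → ρ G - ρ F ≤ k →
      ∃ c : ℚ, 0 ≤ c ∧ chi A F + c • chi A G ∈ W a A G ∧ (¬ F ⋖ G → 0 < c) := by
  classical
  intro k
  induction k with
  | zero =>
    intro F _ hFG hk
    have := hρ.lt hFG
    omega
  | succ k ih =>
    intro F hF hFG hk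
    by_cases hcov : F ⋖ G
    · refine ⟨0, le_rfl, ?_, fun h => absurd hcov h⟩
      rw [zero_smul, add_zero]
      exact Submodule.subset_span ⟨F, ⟨hF, hcov⟩, rfl⟩
    · have haF : a ≤ F := le_of_mem_Fl hF
      let C : Finset L := (hfin.toFinset.filter fun x => x ≤ G ∧ ¬ x ≤ F).image fun x => F ⊔ x
      have hC : ∀ F' ∈ C, ∃ x ∈ A, x ≤ G ∧ ¬ x ≤ F ∧ F' = F ⊔ x := by
        intro F' hF'
        simp only [C, Finset.mem_image, Finset.mem_filter, Set.Finite.mem_toFinset] at hF'
        obtain ⟨x, ⟨hx, hxG, hxF⟩, rfl⟩ := hF'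
        exact ⟨x, hx, hxG, hxF, rfl⟩
      have hC' : ∀ x ∈ A, x ≤ G → ¬ x ≤ F → F ⊔ x ∈ C := by
        intro x hx hxG hxF
        simp only [C, Finset.mem_image, Finset.mem_filter, Set.Finite.mem_toFinset]
        exact ⟨x, ⟨hx, hxG, hxF⟩, rfl⟩
      have hCcov : ∀ F' ∈ C, F ⋖ F' := by
        intro F' hF'
        obtain ⟨x, hx, -, hxF, rfl⟩ := hC F' hF'
        exact covBy_sup (hA x hx) haF hxF
      have hClt : ∀ F' ∈ C, F' < G := by
        intro F' hF'
        have h1 := hCcov F' hF'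
        obtain ⟨x, hx, hxG, hxF, rfl⟩ := hC F' hF'
        refine lt_of_le_of_ne (sup_le hFG.le hxG) fun h => hcov (h ▸ h1)
      have hCFl : ∀ F' ∈ C, F' ∈ Fl a A := by
        intro F' hF'
        obtain ⟨x, hx, -, -, rfl⟩ := hC F' hF'
        exact sup_mem_Fl hF hx
      have hcard : 2 ≤ C.card := by
        obtain ⟨x, hx, hxG, hxF⟩ := exists_not_le_of_mem_Fl hG haF (not_le_of_gt hFG)
        have h1 := hC' x hx hxG hxF
        obtain ⟨y, hy, hyG, hyF⟩ := exists_not_le_of_mem_Fl hG (le_of_mem_Fl (hCFl _ h1))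
          (not_le_of_gt (hClt _ h1))
        have h2 := hC' y hy hyG fun h => hyF (le_sup_of_le_left h)
        have h3 : F ⊔ x ≠ F ⊔ y := fun h => hyF (h ▸ le_sup_right)
        exact Finset.one_lt_card.mpr ⟨_, h1, _, h2, h3⟩
      have hsum : ∑ F' ∈ C, chi A F' = chi A G + ((C.card : ℚ) - 1) • chi A F := by
        funext x
        simp only [Finset.sum_apply, Pi.add_apply, Pi.smul_apply, smul_eq_mul, chi]
        by_cases hxF : (x : L) ≤ F
        · rw [if_pos hxF, if_pos (hxF.trans hFG.le)]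
          rw [Finset.sum_congr rfl (g := fun _ => (1 : ℚ))
            fun F' hF' => if_pos (hxF.trans (hCcov F' hF').le)]
          simp
        · rw [if_neg hxF]
          by_cases hxG : (x : L) ≤ G
          · rw [if_pos hxG, Finset.sum_eq_single (F ⊔ x)]
            · simp
            · intro F' hF' hne
              rw [if_neg]
              intro hxF'
              have h1 : F ⊔ x ≤ F' := sup_le (hCcov F' hF').le hxF'
              have h2 : F < F ⊔ x := left_lt_sup.mpr hxF
              exact (hCcov F' hF').2 h2 (lt_of_le_of_ne h1 (Ne.symm hne))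
            · intro h
              exact absurd (hC' x x.2 hxG hxF) h
          · rw [if_neg hxG, Finset.sum_eq_zero]
            · simp
            · intro F' hF'
              rw [if_neg]
              exact fun h => hxG (h.trans (hClt F' hF').le)
      have hih : ∀ F' ∈ C, ∃ c : ℚ, 0 ≤ c ∧ chi A F' + c • chi A G ∈ W a A G := by
        intro F' hF'
        have h1 := hρ.lt (hCcov F' hF').lt
        obtain ⟨c, hc, hc', -⟩ := ih F' (hCFl F' hF') (hClt F' hF') (by omega)
        exact ⟨c, hc, hc'⟩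
      choose! c hc0 hc1 using hih
      have hmem : ∑ F' ∈ C, (chi A F' + c F' • chi A G) ∈ W a A G :=
        Submodule.sum_mem _ hc1
      rw [Finset.sum_add_distrib, hsum, ← Finset.sum_smul] at hmem
      have hpos : (0 : ℚ) < (C.card : ℚ) - 1 := by
        have : (2 : ℚ) ≤ C.card := by exact_mod_cast hcard
        linarith
      have hs : 0 ≤ ∑ F' ∈ C, c F' := Finset.sum_nonneg hc0
      have hcpos : 0 < (1 + ∑ F' ∈ C, c F') / ((C.card : ℚ) - 1) := by positivity
      refine ⟨(1 + ∑ F' ∈ C, c F') / ((C.card : ℚ) - 1), hcpos.le, ?_, fun _ => hcpos⟩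
      have h2 := Submodule.smul_mem _ (((C.card : ℚ) - 1)⁻¹) hmem
      convert h2 using 1
      funext x
      simp only [Pi.add_apply, Pi.smul_apply, smul_eq_mul]
      field_simp
      ring

theorem chi_mem_W [IsUpperModularLattice L] {ρ : L → ℕ} (hρ : IsRank ρ) {a : L} {A : Set L}
    (hfin : A.Finite) (hA : ∀ x ∈ A, a ⋖ x) {G : L} (hG : G ∈ Fl a A) (hr : ρ a + 2 ≤ ρ G)
    {F : L} (hF : F ∈ Fl a A) (hFG : F ≤ G) : chi A F ∈ W a A G := by
  have haG : a < G := lt_of_le_of_ne (le_of_mem_Fl hG) (by rintro rfl; omega)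
  have hGW : chi A G ∈ W a A G := by
    obtain ⟨c, -, hc, hc'⟩ := chi_aux hρ hfin hA hG _ a (base_mem_Fl a A) haG le_rfl
    have hpos : 0 < c := hc' fun h => by have := hρ.cov h; omega
    have h0 : chi A a = 0 := by
      funext x
      simp only [chi, Pi.zero_apply]
      rw [if_neg (not_le_of_gt (hA x x.2).lt)]
    rw [h0, zero_add] at hc
    have h2 := Submodule.smul_mem _ c⁻¹ hc
    rwa [smul_smul, inv_mul_cancel₀ hpos.ne', one_smul] at h2
  rcases hFG.eq_or_lt with rfl | hlt
  · exact hGW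
  · obtain ⟨c, -, hc, -⟩ := chi_aux hρ hfin hA hG _ F hF hlt le_rfl
    have := Submodule.sub_mem _ hc (Submodule.smul_mem _ c hGW)
    simpa using this

theorem mem_of_rank_one {ρ : L → ℕ} (hρ : IsRank ρ) {a : L} {A : Set L}
    (hA : ∀ x ∈ A, a ⋖ x) {F : L} (hF : F ∈ Fl a A) (hr : ρ F = ρ a + 1) : F ∈ A := by
  have h1 : ¬ F ≤ a := fun h => by have := hρ.le h; omega
  obtain ⟨x, hx, hxF, -⟩ := exists_not_le_of_mem_Fl hF le_rfl h1
  have h2 := hρ.cov (hA x hx)
  have := hρ.eq_of_le hxF (by omega)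
  exact this ▸ hx

/-- the finite case -/
theorem good_of_finite [IsUpperModularLattice L] {ρ : L → ℕ} (hρ : IsRank ρ) {a : L} {A : Set L}
    (hfin : A.Finite) (hA : ∀ x ∈ A, a ⋖ x) {m : ℕ} (hm : 1 ≤ m)
    (hr : ρ (a ⊔ sSup A) = ρ a + m + 1) : Good a A m := by
  classical
  have : Finite A := hfin
  have hv : LinearIndependent ℚ (fun x : A => chi A x) := by
    have e : (fun x : A => chi A x) = fun x : A => Pi.single x (1 : ℚ) := by
      funext x y
      by_cases h : y = x
      · subst h; simp [chi]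
      · have : ¬ (y : L) ≤ x :=
          not_le_of_covBy_ne (hA y y.2) (hA x x.2) fun h' => h (Subtype.ext h')
        simp [chi, this, h]
    rw [e]
    exact Pi.linearIndependent_single_one A ℚ
  have key : ∀ j : ℕ, j < m → ∃ d : A → ℕ → L, ∀ s, m - 1 - j ≤ s → s < m →
      (∀ i, d i s ∈ Fl a A ∧ ρ (d i s) = ρ a + 1 + s ∧ (s + 1 < m → d i s ⋖ d i (s + 1))) ∧
      LinearIndependent ℚ (fun i => chi A (d i s)) := by
    intro j
    induction j with
    | zero =>
      intro _
      obtain ⟨u, hu, hu'⟩ := exchange _ hv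
        (fun _ => chi A '' {F | F ∈ Fl a A ∧ F ⋖ a ⊔ sSup A})
        (fun x => chi_mem_W hρ hfin hA (top_mem_Fl a A) (by omega)
          (mem_Fl_of_mem x.2 (hA x x.2).le) (le_sup_of_le_right (le_sSup x.2)))
      choose F hF hFu using hu
      refine ⟨fun i _ => F i, fun s hs hs' => ⟨fun i => ⟨(hF i).1, ?_, fun h => by omega⟩, ?_⟩⟩
      · have := hρ.cov (hF i).2
        show ρ (F i) = ρ a + 1 + s
        omega
      · have e : (fun i => chi A (F i)) = u := funext hFu
        rw [e]; exact hu'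
    | succ j ih =>
      intro hj
      obtain ⟨d, hd⟩ := ih (by omega)
      obtain ⟨hd1, hd2⟩ := hd (m - 1 - j) le_rfl (by omega)
      obtain ⟨u, hu, hu'⟩ := exchange _ hd2
        (fun i => chi A '' {F | F ∈ Fl a A ∧ F ⋖ d i (m - 1 - j)})
        (fun i => chi_mem_W hρ hfin hA (hd1 i).1 (by rw [(hd1 i).2.1]; omega) (hd1 i).1 le_rfl)
      choose F hF hFu using hu
      refine ⟨fun i s => if s = m - 1 - (j + 1) then F i else d i s, fun s hs hs' => ?_⟩
      by_cases hsj : s = m - 1 - (j + 1)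
      · have e1 : s + 1 = m - 1 - j := by omega
        have e2 : ¬ (s + 1 = m - 1 - (j + 1)) := by omega
        simp only [if_pos hsj, if_neg e2]
        refine ⟨fun i => ⟨(hF i).1, ?_, fun _ => e1 ▸ (hF i).2⟩, ?_⟩
        · have h1 := hρ.cov (hF i).2
          have h2 := (hd1 i).2.1
          omega
        · have e : (fun i => chi A (F i)) = u := funext hFu
          rw [e]; exact hu'
      · have e2 : ¬ (s + 1 = m - 1 - (j + 1)) := by omega
        simp only [if_neg hsj, if_neg e2]
        exact hd s (by omega) hs'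
  obtain ⟨d, hd⟩ := key (m - 1) (by omega)
  have hd' : ∀ s, s < m →
      (∀ i, d i s ∈ Fl a A ∧ ρ (d i s) = ρ a + 1 + s ∧ (s + 1 < m → d i s ⋖ d i (s + 1))) ∧
      LinearIndependent ℚ (fun i => chi A (d i s)) := fun s hs => hd s (by omega) hs
  have hinj : ∀ s, s < m → ∀ i i', d i s = d i' s → i = i' := by
    intro s hs i i' h
    apply (hd' s hs).2.injective
    simp only [h]
  have h0 : ∀ i, d i 0 ∈ A := fun i =>
    mem_of_rank_one hρ hA ((hd' 0 (by omega)).1 i).1 ((hd' 0 (by omega)).1 i).2.1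
  let σ : A → A := fun i => ⟨d i 0, h0 i⟩
  have hσ : Function.Injective σ := fun i i' h =>
    hinj 0 (by omega) i i' (congrArg Subtype.val h)
  have hσ' : Function.Surjective σ := Finite.surjective_of_injective hσ
  choose τ hτ using hσ'
  refine ⟨fun x => if h : x ∈ A then d (τ ⟨x, h⟩) else fun _ => x, ?_, ?_⟩
  · intro x hx
    simp only [dif_pos hx]
    refine ⟨congrArg Subtype.val (hτ ⟨x, hx⟩), fun i hi => ?_, fun i hi => ?_⟩
    · exact ((hd' i (by omega)).1 _).2.2 hi
    · exact ((hd' i hi).1 _).1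
  · intro x hx y hy i hi h
    simp only [dif_pos hx, dif_pos hy] at h
    have h1 := hinj i hi _ _ h
    have h2 : (⟨x, hx⟩ : A) = ⟨y, hy⟩ := by rw [← hτ ⟨x, hx⟩, ← hτ ⟨y, hy⟩, h1]
    exact congrArg Subtype.val h2

end Pool.Agent.MP_246c79_co.H33
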